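import Mathlib
import Pool.Agent.H497R3.Coding2

set_option autoImplicit false
open MeasureTheory ProbabilityTheory Filter Topology
open scoped ENNReal
open Pool.Agent.H497R3.Coding

namespace Pool.Agent.Results.MP_207c40_pr.NoEqualEntropyCoding

/-- The probability that the stationary Markov chain with initial law `π` and transition
probabilities `p` shows the word `w` (of length `n + 1`) in a given window of `n + 1`
consecutive times. -/
noncomputable def wordProb {S : Type} (π : S → ℝ) (p : S → S → ℝ) {n : ℕ}
    (w : Fin (n + 1) → S) : ℝ :=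
  π (w 0) * ∏ i : Fin n, p (w i.castSucc) (w i.succ)

/-- `π` is a probability vector, `p` a stochastic matrix, and `π` is stationary for `p`. -/
structure IsStationaryChain {S : Type} [Fintype S] (π : S → ℝ) (p : S → S → ℝ) : Prop where
  init_nonneg : ∀ i, 0 ≤ π i
  init_sum : ∑ i, π i = 1
  trans_nonneg : ∀ i j, 0 ≤ p i j
  trans_sum : ∀ i, ∑ j, p i j = 1
  stationary : ∀ j, ∑ i, π i * p i j = π j

/-- Irreducibility and aperiodicity of a finite chain: all large powers of the transition
matrix are strictly positive. -/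
def IsErgodicChain {S : Type} [Fintype S] [DecidableEq S] (p : S → S → ℝ) : Prop :=
  ∃ n₀ : ℕ, ∀ n : ℕ, n₀ ≤ n → ∀ i j, 0 < ((Matrix.of p) ^ n) i j

/-- The probability, for the chain started at `s`, that the first return time to `s` is
larger than `n`. -/
noncomputable def returnTail {S : Type} [Fintype S] [DecidableEq S] (p : S → S → ℝ) (s : S)
    (n : ℕ) : ℝ :=
  ∑ w : Fin (n + 1) → S, if w 0 = s ∧ ∀ i : Fin n, w i.succ ≠ s then
    ∏ i : Fin n, p (w i.castSucc) (w i.succ) else 0

/-- Exponential return times. -/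
def HasExpReturn {S : Type} [Fintype S] [DecidableEq S] (p : S → S → ℝ) : Prop :=
  ∃ s : S, ∃ C c : ℝ, 0 < C ∧ 0 < c ∧ ∀ n : ℕ, returnTail p s n ≤ C * Real.exp (-(c * n))

/-- Shannon entropy (in nats) of the block of `n + 1` consecutive states. -/
noncomputable def blockEntropy {S : Type} [Fintype S] (π : S → ℝ) (p : S → S → ℝ) (n : ℕ) : ℝ :=
  ∑ w : Fin (n + 1) → S, Real.negMulLog (wordProb π p w)

/-- The (Kolmogorov-Sinai) entropy of the chain is `h`. -/
def HasEntropy {S : Type} [Fintype S] (π : S → ℝ) (p : S → S → ℝ) (h : ℝ) : Prop :=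
  Tendsto (fun n : ℕ => blockEntropy π p n / ((n : ℝ) + 1)) atTop (𝓝 h)

/-- `φ` is a factor map from the i.i.d. process with marginal `ν` onto the stationary Markov
chain `(π, p)`: measurable, commuting with all shifts almost surely, and with image law the
law of the two-sided stationary chain. -/
structure IsFactorOntoChain {S T : Type} [MeasurableSpace S] [MeasurableSpace T]
    (ν : Measure T) (φ : (ℤ → T) → ℤ → S) (π : S → ℝ) (p : S → S → ℝ) : Prop where
  measurable : Measurable φ
  equivariant : ∀ᵐ y ∂(iidLaw ν), ∀ k : ℤ, φ (shift k y) = shift k (φ y)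
  law : ∀ (a : ℤ) (n : ℕ) (w : Fin (n + 1) → S),
    iidLaw ν {y | ∀ i : Fin (n + 1), φ y (a + (i : ℕ)) = w i} = ENNReal.ofReal (wordProb π p w)

/-- The coding window has exponential tails: for some set `D` of full measure, the event that
the value of `φ y` at the origin is not determined (among configurations of `D`) by the
coordinates of `y` in `[-r, r]` has probability at most `C exp (-c r)`. -/
def HasExpWindow {S T : Type} [MeasurableSpace T] (ν : Measure T) (φ : (ℤ → T) → ℤ → S) : Prop :=
  ∃ D : Set (ℤ → T), iidLaw ν Dᶜ = 0 ∧ ∃ C c : ℝ, 0 < C ∧ 0 < c ∧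
    ∀ r : ℕ, iidLaw ν (Det D φ r)ᶜ ≤ ENNReal.ofReal (C * Real.exp (-(c * r)))

/-- The golden ratio. -/
noncomputable def gr : ℝ := (1 + √5) / 2

theorem gr_pos : 0 < gr := Real.goldenRatio_pos

theorem one_lt_gr : 1 < gr := Real.one_lt_goldenRatio

theorem gr_lt_two : gr < 2 := Real.goldenRatio_lt_two

theorem gr_sq : gr ^ 2 = gr + 1 := Real.goldenRatio_sq

/-- Initial law of the Parry chain of the golden mean shift. -/
noncomputable def gmInit : Fin 2 → ℝ :=
  ![gr ^ 2 / (gr ^ 2 + 1), 1 / (gr ^ 2 + 1)]

/-- Transition matrix of the Parry chain of the golden mean shift. -/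
noncomputable def gmTrans : Fin 2 → Fin 2 → ℝ :=
  ![![1 / gr, 1 / gr ^ 2], ![1, 0]]

theorem gm_stationary : IsStationaryChain gmInit gmTrans := by
  have h0 := gr_pos
  have h1 := gr_sq
  refine ⟨?_, ?_, ?_, ?_, ?_⟩
  · intro i
    fin_cases i <;> simp [gmInit] <;> positivity
  · simp [gmInit, Fin.sum_univ_two]
    field_simp
  · intro i j
    fin_cases i <;> fin_cases j <;> simp [gmTrans] <;> positivity
  · intro i
    fin_cases i
    · simp [gmTrans, Fin.sum_univ_two]
      field_simp
      linarith
    · simp [gmTrans, Fin.sum_univ_two]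
  · intro j
    fin_cases j
    · simp [gmTrans, gmInit, Fin.sum_univ_two]
      field_simp
      linarith
    · simp [gmTrans, gmInit, Fin.sum_univ_two]
      field_simp

theorem gm_ergodic : IsErgodicChain gmTrans := by
  have h0 := gr_pos
  refine ⟨2, ?_⟩
  intro n hn
  induction n, hn using Nat.le_induction with
  | base =>
    intro i j
    rw [pow_two, Matrix.mul_apply, Fin.sum_univ_two]
    fin_cases i <;> fin_cases j <;> simp [gmTrans] <;> positivity
  | succ n hn ih =>
    intro i j
    rw [pow_succ, Matrix.mul_apply, Fin.sum_univ_two]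
    have h1 := ih i 0
    have h2 := ih i 1
    have h3 : 0 < gmTrans 0 j := by
      fin_cases j <;> simp [gmTrans] <;> positivity
    have h4 : 0 ≤ gmTrans 1 j := gm_stationary.trans_nonneg 1 j
    have h5 : 0 < (Matrix.of gmTrans ^ n) i 0 * gmTrans 0 j := mul_pos h1 h3
    have h6 : 0 ≤ (Matrix.of gmTrans ^ n) i 1 * gmTrans 1 j := mul_nonneg h2.le h4
    simpa using add_pos_of_pos_of_nonneg h5 h6

theorem gmTrans_le_one (i j : Fin 2) : gmTrans i j ≤ 1 := by
  have h := gm_stationary.trans_sum i
  rw [Fin.sum_univ_two] at h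
  have h0 := gm_stationary.trans_nonneg i 0
  have h1 := gm_stationary.trans_nonneg i 1
  fin_cases j
  · simp only [Fin.zero_eta]; linarith
  · simp only [Fin.mk_one]; linarith

theorem gm_expReturn : HasExpReturn gmTrans := by
  refine ⟨0, Real.exp 2, 1, Real.exp_pos _, one_pos, ?_⟩
  intro n
  have huniq : returnTail gmTrans 0 n =
      ∏ i : Fin n, gmTrans ((Fin.cons 0 (fun _ => 1) : Fin (n+1) → Fin 2) i.castSucc)
        ((Fin.cons 0 (fun _ => 1) : Fin (n+1) → Fin 2) i.succ) := by
    unfold returnTail
    rw [Finset.sum_eq_single (Fin.cons 0 (fun _ => 1) : Fin (n+1) → Fin 2)]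
    · rw [if_pos]
      refine ⟨by simp, fun i => by simp⟩
    · intro w _ hw
      rw [if_neg]
      rintro ⟨h1, h2⟩
      apply hw
      ext i
      refine Fin.cases ?_ (fun i => ?_) i
      · simp [h1]
      · have := h2 i
        simp only [Fin.cons_succ]
        have h3 : w i.succ = 1 := by omega
        rw [h3]
    · intro h
      exact absurd (Finset.mem_univ _) h
  rw [huniq]
  by_cases hn : 2 ≤ n
  · have h0 : ∏ i : Fin n, gmTrans ((Fin.cons 0 (fun _ => 1) : Fin (n+1) → Fin 2) i.castSucc)
        ((Fin.cons 0 (fun _ => 1) : Fin (n+1) → Fin 2) i.succ) = 0 := by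
      apply Finset.prod_eq_zero (Finset.mem_univ (⟨1, by omega⟩ : Fin n))
      have e1 : (⟨1, by omega⟩ : Fin n).castSucc = (⟨0, by omega⟩ : Fin n).succ := by
        ext; simp
      rw [e1, Fin.cons_succ, Fin.cons_succ]
      simp [gmTrans]
    rw [h0]
    positivity
  · push Not at hn
    refine (Finset.prod_le_one (fun i _ => gm_stationary.trans_nonneg _ _)
      (fun i _ => gmTrans_le_one _ _)).trans ?_
    rw [← Real.exp_add]
    apply Real.one_le_exp
    have : (n:ℝ) < 2 := by exact_mod_cast hn
    linarith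

/-- right eigenvector of the golden mean matrix -/
noncomputable def ev : Fin 2 → ℝ := ![gr, 1]

theorem ev_pos (i : Fin 2) : 0 < ev i := by
  have := gr_pos
  fin_cases i <;> simp [ev, this]

theorem one_le_ev (i : Fin 2) : 1 ≤ ev i := by
  have := one_lt_gr
  fin_cases i <;> simp [ev, this.le]

theorem ev_le (i : Fin 2) : ev i ≤ gr := by
  have := one_lt_gr
  fin_cases i <;> simp [ev, this.le]

theorem gmTrans_eq (i j : Fin 2) :
    gmTrans i j = 0 ∨ gmTrans i j = ev j / (gr * ev i) := by
  have h0 := gr_pos
  fin_cases i <;> fin_cases j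
  · right
    simp only [gmTrans, ev, Fin.zero_eta, Matrix.cons_val_zero]
    field_simp
  · right
    simp only [gmTrans, ev, Fin.zero_eta, Fin.mk_one, Matrix.cons_val_zero, Matrix.cons_val_one]
    field_simp
  · right
    simp only [gmTrans, ev, Fin.zero_eta, Fin.mk_one, Matrix.cons_val_zero, Matrix.cons_val_one]
    field_simp
  · left; simp [gmTrans]

theorem prod_word (n : ℕ) (w : Fin (n + 1) → Fin 2) :
    ∏ i : Fin n, gmTrans (w i.castSucc) (w i.succ) = 0 ∨
    ∏ i : Fin n, gmTrans (w i.castSucc) (w i.succ) =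
      ev (w (Fin.last n)) / (ev (w 0) * gr ^ n) := by
  have h0 := gr_pos
  induction n with
  | zero =>
    right
    have : Fin.last 0 = 0 := rfl
    rw [this]
    simp
    rw [div_self (ev_pos _).ne']
  | succ n ih =>
    rw [Fin.prod_univ_castSucc]
    have h1 := ih (fun i => w i.castSucc)
    have h2 : ∏ i : Fin n, gmTrans (w i.castSucc.castSucc) (w i.castSucc.succ) =
        ∏ i : Fin n, gmTrans ((fun i : Fin (n+1) => w i.castSucc) i.castSucc)
          ((fun i : Fin (n+1) => w i.castSucc) i.succ) := by
      apply Finset.prod_congr rfl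
      intro i _
      simp only [Fin.succ_castSucc]
    rw [h2]
    rcases h1 with h1 | h1
    · left; rw [h1, zero_mul]
    · rcases gmTrans_eq (w (Fin.last n).castSucc) (w (Fin.last n).succ) with h3 | h3
      · left; rw [h3, mul_zero]
      · right
        rw [h1, h3]
        simp only [Fin.castSucc_zero, Fin.succ_last]
        have e1 := (ev_pos (w (Fin.last n).castSucc)).ne'
        have e2 := (ev_pos (w 0)).ne'
        field_simp
        rw [pow_succ]
        ring

theorem gm_word_le (n : ℕ) (w : Fin (n + 1) → Fin 2) :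
    wordProb gmInit gmTrans w ≤ gr ^ 2 *
      Real.exp (-(Real.log gr * (n + 1))) := by
  have h0 := gr_pos
  have hexp : Real.exp (-(Real.log gr * (n + 1))) =
      1 / gr ^ (n + 1) := by
    rw [Real.exp_neg, show Real.log gr * ((n:ℝ) + 1) =
      ((n + 1 : ℕ) : ℝ) * Real.log gr by push_cast; ring, Real.exp_nat_mul,
      Real.exp_log h0, one_div]
  rw [hexp]
  unfold wordProb
  have hi : gmInit (w 0) ≤ 1 := by
    have h1 := gm_stationary.init_sum
    rw [Fin.sum_univ_two] at h1
    have h2 := gm_stationary.init_nonneg 0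
    have h3 := gm_stationary.init_nonneg 1
    have h4 : w 0 = 0 ∨ w 0 = 1 := by omega
    rcases h4 with h4 | h4 <;> rw [h4] <;> linarith
  rcases prod_word n w with h | h
  · rw [h, mul_zero]; positivity
  · rw [h]
    have e1 := ev_le (w (Fin.last n))
    have e2 := one_le_ev (w 0)
    have e3 := ev_pos (w (Fin.last n))
    calc gmInit (w 0) * (ev (w (Fin.last n)) / (ev (w 0) * gr ^ n))
        ≤ 1 * (gr / (1 * gr ^ n)) := by
          apply mul_le_mul hi _ (by have := ev_pos (w 0); positivity) zero_le_one
          gcongr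
      _ = _ := by
          field_simp
          ring

theorem gm_word_ge (n : ℕ) (w : Fin (n + 1) → Fin 2) (hw : wordProb gmInit gmTrans w ≠ 0) :
    1 / (gr ^ 2 + 1) / gr / gr ^ n ≤
      wordProb gmInit gmTrans w := by
  have h0 := gr_pos
  have h1 := one_lt_gr
  unfold wordProb at *
  have hi : 1 / (gr ^ 2 + 1) ≤ gmInit (w 0) := by
    have h4 : w 0 = 0 ∨ w 0 = 1 := by omega
    rcases h4 with h4 | h4 <;> rw [h4] <;> simp only [gmInit, Matrix.cons_val_zero, Matrix.cons_val_one]
    · gcongr
      nlinarith
    · exact le_refl _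
  rcases prod_word n w with h | h
  · rw [h, mul_zero] at hw; exact absurd rfl hw
  · rw [h]
    have e1 := one_le_ev (w (Fin.last n))
    have e2 := ev_le (w 0)
    have e3 := ev_pos (w 0)
    calc 1 / (gr ^ 2 + 1) / gr / gr ^ n
        = 1 / (gr ^ 2 + 1) * (1 / (gr * gr ^ n)) := by
          field_simp
      _ ≤ _ := by
          apply mul_le_mul hi _ (by positivity) (le_trans (by positivity) hi)
          gcongr

theorem word_nonneg (n : ℕ) (w : Fin (n + 1) → Fin 2) : 0 ≤ wordProb gmInit gmTrans w :=
  mul_nonneg (gm_stationary.init_nonneg _)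
    (Finset.prod_nonneg fun _ _ => gm_stationary.trans_nonneg _ _)

theorem word_sum (n : ℕ) : ∑ w : Fin (n + 1) → Fin 2, wordProb gmInit gmTrans w = 1 := by
  induction n with
  | zero =>
    have h := gm_stationary.init_sum
    rw [← h]
    refine Fintype.sum_equiv (Equiv.funUnique (Fin 1) (Fin 2)) _ _ ?_
    intro w
    simp [wordProb]
  | succ n ih =>
    rw [← (Fin.snocEquiv (fun _ : Fin (n + 2) => Fin 2)).sum_comp, Fintype.sum_prod_type_right,
      ← ih]
    apply Finset.sum_congr rfl
    intro w _
    have hs : ∀ j : Fin 2, wordProb gmInit gmTrans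
        ((Fin.snocEquiv (fun _ : Fin (n + 2) => Fin 2)) (j, w)) =
        wordProb gmInit gmTrans w * gmTrans (w (Fin.last n)) j := by
      intro j
      unfold wordProb
      rw [Fin.prod_univ_castSucc]
      have hx0 : (Fin.snocEquiv (fun _ : Fin (n + 2) => Fin 2)) (j, w) 0 = w 0 := by
        simp only [Fin.snocEquiv, Equiv.coe_fn_mk]
        rw [← Fin.castSucc_zero, Fin.snoc_castSucc]
      have hxc : ∀ i : Fin (n + 1),
          (Fin.snocEquiv (fun _ : Fin (n + 2) => Fin 2)) (j, w) i.castSucc = w i := by
        intro i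
        simp only [Fin.snocEquiv, Equiv.coe_fn_mk]
        rw [Fin.snoc_castSucc]
      have hxl : (Fin.snocEquiv (fun _ : Fin (n + 2) => Fin 2)) (j, w) (Fin.last (n + 1)) = j := by
        simp only [Fin.snocEquiv, Equiv.coe_fn_mk]
        rw [Fin.snoc_last]
      rw [hx0, hxc, Fin.succ_last, hxl, mul_assoc]
      congr 2
      apply Finset.prod_congr rfl
      intro i _
      rw [hxc, Fin.succ_castSucc, hxc]
    simp_rw [hs]
    rw [← Finset.mul_sum, gm_stationary.trans_sum, mul_one]

theorem gm_entropy : HasEntropy gmInit gmTrans (Real.log gr) := by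
  have h0 := gr_pos
  have h1 := one_lt_gr
  set h := Real.log gr with hh
  have hhpos : 0 < h := Real.log_pos h1
  -- pointwise bounds
  set c1 : ℝ := 1 / (gr ^ 2 + 1) / gr with hc1
  have hc1pos : 0 < c1 := by positivity
  have hup : ∀ (n : ℕ) (w : Fin (n + 1) → Fin 2),
      Real.negMulLog (wordProb gmInit gmTrans w) ≤
        wordProb gmInit gmTrans w * (h * n - Real.log c1) := by
    intro n w
    rcases (word_nonneg n w).eq_or_lt with hz | hz
    · rw [← hz]; simp
    · rw [Real.negMulLog, neg_mul, ← mul_neg]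
      apply mul_le_mul_of_nonneg_left _ hz.le
      have := Real.log_le_log (by positivity) (gm_word_ge n w hz.ne')
      rw [Real.log_div hc1pos.ne' (by positivity), Real.log_pow] at this
      linarith
  have hlo : ∀ (n : ℕ) (w : Fin (n + 1) → Fin 2),
      wordProb gmInit gmTrans w * (h * n - h) ≤
        Real.negMulLog (wordProb gmInit gmTrans w) := by
    intro n w
    rcases (word_nonneg n w).eq_or_lt with hz | hz
    · rw [← hz]; simp
    · rw [Real.negMulLog, neg_mul, ← mul_neg]
      apply mul_le_mul_of_nonneg_left _ hz.le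
      have := Real.log_le_log hz (gm_word_le n w)
      rw [Real.log_mul (by positivity) (Real.exp_pos _).ne', Real.log_exp, Real.log_pow] at this
      push_cast at this
      linarith
  have hU : ∀ n : ℕ, blockEntropy gmInit gmTrans n ≤ h * n - Real.log c1 := by
    intro n
    calc blockEntropy gmInit gmTrans n ≤
        ∑ w : Fin (n + 1) → Fin 2, wordProb gmInit gmTrans w * (h * n - Real.log c1) :=
          Finset.sum_le_sum fun w _ => hup n w
      _ = _ := by rw [← Finset.sum_mul, word_sum, one_mul]
  have hL : ∀ n : ℕ, h * n - h ≤ blockEntropy gmInit gmTrans n := by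
    intro n
    calc h * n - h = ∑ w : Fin (n + 1) → Fin 2, wordProb gmInit gmTrans w * (h * n - h) := by
          rw [← Finset.sum_mul, word_sum, one_mul]
      _ ≤ _ := Finset.sum_le_sum fun w _ => hlo n w
  have hlim : ∀ a : ℝ, Tendsto (fun n : ℕ => (h * n + a) / ((n : ℝ) + 1)) atTop (𝓝 h) := by
    intro a
    have h2 : Tendsto (fun n : ℕ => h + (a - h) * (1 / ((n : ℝ) + 1))) atTop
        (𝓝 (h + (a - h) * 0)) :=
      tendsto_const_nhds.add (tendsto_one_div_add_atTop_nhds_zero_nat.const_mul _)
    rw [mul_zero, add_zero] at h2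
    refine h2.congr fun n => ?_
    have : (n:ℝ) + 1 ≠ 0 := by positivity
    field_simp
    ring
  refine tendsto_of_tendsto_of_tendsto_of_le_of_le (hlim (-h)) (hlim (-Real.log c1)) ?_ ?_
  · intro n
    have : (0:ℝ) < (n:ℝ) + 1 := by positivity
    have h3 := hL n
    simp only
    gcongr
    linarith
  · intro n
    have : (0:ℝ) < (n:ℝ) + 1 := by positivity
    have h3 := hU n
    simp only
    gcongr
    linarith

/-- **Negative answer to Q1, already for a two-state chain.** The Parry chain of the golden
mean shift is a stationary ergodic chain with exponential (even bounded) return times and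
entropy `log ((1+√5)/2)`, and no i.i.d. process of this same entropy has a factor map onto
it whose coding window has exponential tails. -/
theorem result :
    IsStationaryChain gmInit gmTrans ∧ IsErgodicChain gmTrans ∧ HasExpReturn gmTrans ∧
    HasEntropy gmInit gmTrans (Real.log gr) ∧
    ∀ (T : Type) [MeasurableSpace T] [StandardBorelSpace T] (ν : Measure T)
      [IsProbabilityMeasure ν],
      shannonEntropy ν = ENNReal.ofReal (Real.log gr) →
      ¬ ∃ φ : (ℤ → T) → ℤ → Fin 2,
        IsFactorOntoChain ν φ gmInit gmTrans ∧ HasExpWindow ν φ := by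
  refine ⟨gm_stationary, gm_ergodic, gm_expReturn, gm_entropy, ?_⟩
  intro T _ _ ν _ hent
  rintro ⟨φ, hφ, D, hD, C, c, hC, hc, htail⟩
  have h0 := gr_pos
  have h1 := one_lt_gr
  have h2 : gr < 2 := gr_lt_two
  set h := Real.log gr with hh
  have hhpos : 0 < h := Real.log_pos h1
  obtain ⟨t, ht, K, hK⟩ := moment_bound ν D hD φ hφ.equivariant h (gr ^ 2)
    (by nlinarith) (by
      intro a n w
      rw [hφ.law a n w]
      exact ENNReal.ofReal_le_ofReal (gm_word_le n w)) hhpos.le C c hC.le hc htail
  have hrig := entropy_rigid ν h hhpos.le hent t ht K hK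
  have hexp : Real.exp (-h) = 1 / gr := by
    rw [Real.exp_neg, hh, Real.exp_log h0, one_div]
  rw [hexp] at hrig
  obtain ⟨s, hs⟩ := hrig.exists
  have hcompl : ν {s}ᶜ ≠ 0 := by
    intro hz
    have h3 : ν {s} = 1 := by
      have := prob_add_prob_compl (μ := ν) (measurableSet_singleton s)
      rw [hz, add_zero] at this
      exact this
    rw [h3] at hs
    simp only [ENNReal.toReal_one] at hs
    rw [eq_div_iff h0.ne'] at hs
    linarith
  obtain ⟨s', hs', hs'2⟩ : ∃ s' ∈ ({s}ᶜ : Set T), (ν {s'}).toReal = 1 / gr := by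
    by_contra hcon
    push Not at hcon
    apply hcompl
    refine measure_mono_null ?_ (ae_iff.mp hrig)
    intro x hx
    exact hcon x hx
  have hne : s ≠ s' := fun e => hs' (by simp [e])
  have hun : (ν {s, s'}).toReal = 1 / gr + 1 / gr := by
    rw [show ({s, s'} : Set T) = {s} ∪ {s'} from rfl,
      measure_union (Set.disjoint_singleton.mpr hne) (measurableSet_singleton _),
      ENNReal.toReal_add (measure_ne_top _ _) (measure_ne_top _ _), hs, hs'2]
  have hle : (ν {s, s'}).toReal ≤ 1 :=
    ENNReal.toReal_le_of_le_ofReal (by norm_num) (by simpa using prob_le_one)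
  rw [hun, ← add_div, div_le_one h0] at hle
  linarith

end Pool.Agent.Results.MP_207c40_pr.NoEqualEntropyCoding
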